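import Pool.Agent.HexS.GeoS
import Pool.Agent.HexS.AllS

/-!
# The values of one Fourier coefficient of the measures invariant under `x ↦ 2 x` and `x ↦ 3 x`

Let `e(t) = exp (2 π i t)`. For every `n ≠ 0` the numbers `∫ e(n x) dμ(x)`, where `μ` runs through all probability measures
on the circle preserved by `x ↦ 2 x` and `x ↦ 3 x`, form exactly the hexagon whose vertices are the means of `e` over
the orbits of `0`, `1/5`, `±1/23` and `±1/431`; on its boundary only measures with finite support occur. The image of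
`μ` under `x ↦ n x` is as near to the mixtures of two neighbouring orbit measures as the value is to the side between
their vertices, up to a constant factor. So, among all these measures `μ`, the integral of a function
`Re (ζ e(x)) + g(x)`, where `|ζ| = 1` and `g` has a small Lipschitz constant, is largest at one of six orbit measures.
-/

open MeasureTheory ComplexConjugate

namespace Pool.Agent.Results.MP_e27144_an.Hexagon

/-- `μ` is a probability measure on `ℝ / ℤ` preserved by `x ↦ 2 x` and by `x ↦ 3 x`. -/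
def Invariant23 (μ : Measure (AddCircle (1 : ℝ))) : Prop :=
  IsProbabilityMeasure μ ∧ MeasurePreserving (fun x : AddCircle (1 : ℝ) => (2 : ℕ) • x) μ μ ∧
    MeasurePreserving (fun x : AddCircle (1 : ℝ) => (3 : ℕ) • x) μ μ

/-- The mean of `e(2 ^ j / m)` over `0 ≤ j < L`, where `e(t) = exp (2 π i t)`. -/
noncomputable def mean (m L : ℕ) : ℂ :=
  (∑ j ∈ Finset.range L, Complex.exp (2 * Real.pi * Complex.I * (2 ^ j / m))) / L

/-- The vertices: the means of `e` over the orbits of `0`, `1/431`, `1/23`, `1/5`, `-1/23` and `-1/431`. -/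
noncomputable def vert : Fin 6 → ℂ :=
  ![1, mean 431 43, mean 23 11, -1 / 4, conj (mean 23 11), conj (mean 431 43)]

/-- The convex hull of the six vertices. -/
noncomputable def hull : Set ℂ := convexHull ℝ (Set.range vert)

/-- The uniform probability measure on the points `s * 2 ^ j / m`, `0 ≤ j < L`, of the circle. -/
noncomputable def unif (m L : ℕ) (s : ℤ) : Measure (AddCircle (1 : ℝ)) :=
  (L : ENNReal)⁻¹ • ∑ j ∈ Finset.range L, Measure.dirac ((s * 2 ^ j / m : ℝ) : AddCircle (1 : ℝ))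

/-- The orbit measures of `0`, `1/431`, `1/23`, `1/5`, `-1/23` and `-1/431`. -/
noncomputable def orbit : Fin 6 → Measure (AddCircle (1 : ℝ)) :=
  ![unif 1 1 1, unif 431 43 1, unif 23 11 1, unif 5 4 1, unif 23 11 (-1), unif 431 43 (-1)]

/-- `μ` is a mixture of the orbit measures at the two ends of one side. -/
def Mixture (μ : Measure (AddCircle (1 : ℝ))) : Prop :=
  ∃ i : Fin 6, ∃ θ ∈ Set.Icc (0 : ℝ) 1,
    μ = ENNReal.ofReal θ • orbit i + ENNReal.ofReal (1 - θ) • orbit (i + 1)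

/-! ## Proof -/

theorem mean_eq (m L : ℕ) : mean m L = Hex.vtx m L := by
  unfold mean Hex.vtx Hex.sm Hex.pt Hex.rt
  congr 1
  refine Finset.sum_congr rfl fun j _ => ?_
  rw [← Complex.exp_nat_mul]
  congr 1
  push_cast
  ring

theorem vert_eq : vert = ![1, Hex.vtx 431 43, Hex.vtx 23 11, -1 / 4, conj (Hex.vtx 23 11), conj (Hex.vtx 431 43)] := by
  unfold vert
  rw [mean_eq, mean_eq]

theorem range_eq : Set.range vert =
    {1, Hex.vtx 431 43, Hex.vtx 23 11, -1 / 4, conj (Hex.vtx 23 11), conj (Hex.vtx 431 43)} := by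
  rw [vert_eq]
  ext z
  simp only [Set.mem_range, Set.mem_insert_iff, Set.mem_singleton_iff]
  constructor
  · rintro ⟨i, rfl⟩
    fin_cases i <;> simp
  · rintro (h | h | h | h | h | h)
    · exact ⟨0, h.symm⟩
    · exact ⟨1, h.symm⟩
    · exact ⟨2, h.symm⟩
    · exact ⟨3, h.symm⟩
    · exact ⟨4, h.symm⟩
    · exact ⟨5, h.symm⟩

theorem hull_eq : hull = Hex.hexagon := by
  unfold hull Hex.hexagon
  rw [range_eq]

theorem inputs : Hex.Inputs where
  e1 := by
    obtain ⟨G, K, h⟩ := Hex.good_of_cert Hex.Cr.cyc_1 Hex.cert_1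
    exact Hex.edge_of_good (by norm_num) (by norm_num) G K h
  e2 := by
    obtain ⟨G, K, h⟩ := Hex.good_of_cert Hex.Cr.cyc_2 Hex.cert_2
    exact Hex.edge_of_good (by norm_num) (by norm_num) G K h
  e3 := by
    obtain ⟨G, K, h⟩ := Hex.good_of_cert Hex.Cr.cyc_3 Hex.cert_3
    exact Hex.edge_of_good (by norm_num) (by norm_num) G K h
  v431 := Hex.vtx_431
  v23 := Hex.vtx_23

/-- One side, from its certificate. -/
theorem side {n₁ L₁ n₂ L₂ : ℕ} (hC : Hex.Cyc n₁ L₁ n₂ L₂) (h : Hex.Cert n₁ L₁ n₂ L₂) :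
    HexS.Stab (Hex.vtx n₁ L₁) (Hex.vtx n₂ L₂) (HexS.unif n₁ L₁ 1) (HexS.unif n₂ L₂ 1) := by
  obtain ⟨G, K, hg⟩ := HexS.good_of_certS hC h
  have hq := HexS.sideQ_of_good hC.pos₁ hC.pos₂ G K hg
  obtain ⟨-, -, -, -, -, -, -, -, -, -, -, -, -, -, -, -, -, hsep, -⟩ := h
  refine HexS.stab_of (HexS.stab1_of_sideL hC (HexS.sideL_of_sideQ hC (δ := 1 / 2 ^ 14) (by norm_num) (by norm_num)
    ?_ hq))
  intro p hp q hq hne
  refine le_trans (le_of_eq ?_) (hsep p hp q hq hne)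
  norm_num

theorem unif_eq (m L : ℕ) (s : ℤ) : unif m L s = HexS.unif m L s := rfl

theorem orbit_prob (i : Fin 6) : IsProbabilityMeasure (orbit i) := by
  fin_cases i
  · exact HexS.unif_prob (by norm_num)
  · exact HexS.unif_prob (by norm_num)
  · exact HexS.unif_prob (by norm_num)
  · exact HexS.unif_prob (by norm_num)
  · exact HexS.unif_prob (by norm_num)
  · exact HexS.unif_prob (by norm_num)

theorem stab (i : Fin 6) : HexS.Stab (vert i) (vert (i + 1)) (orbit i) (orbit (i + 1)) := by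
  have s1 := side Hex.Cr.cyc_1 Hex.cert_1
  have s2 := side Hex.Cr.cyc_2 Hex.cert_2
  have s3 := side Hex.Cr.cyc_3 Hex.cert_3
  have t1 := HexS.stab_symm (HexS.stab_conj s1 HexS.neg_one (HexS.neg_om 431 43))
  have t2 := HexS.stab_symm (HexS.stab_conj s2 (HexS.neg_om 431 43) (HexS.neg_om 23 11))
  have t3 := HexS.stab_symm (HexS.stab_conj s3 (HexS.neg_om 23 11) HexS.neg_five)
  have c1 : conj (1 : ℂ) = 1 := map_one _
  have c5 : conj (-1 / 4 : ℂ) = -1 / 4 := by
    have h : (-1 / 4 : ℂ) = ((-1 / 4 : ℝ) : ℂ) := by push_cast; ring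
    rw [h, Complex.conj_ofReal]
  rw [Hex.fin_v1] at s1 t1
  rw [Hex.fin_v5] at s3 t3
  rw [c1] at t1
  rw [c5] at t3
  rw [vert_eq]
  fin_cases i
  · exact s1
  · exact s2
  · exact s3
  · exact t3
  · exact t2
  · exact t1

theorem val_eq (ζ : ℂ) (j : Fin 6) : (ζ * vert j).re =
    HexS.six ζ.re ζ.im (Hex.vtx 431 43).re (Hex.vtx 431 43).im (Hex.vtx 23 11).re (Hex.vtx 23 11).im j := by
  rw [vert_eq]
  exact HexS.six_eq ζ j

theorem pair_exists (ζ : ℂ) (hζ : ζ ≠ 0) : ∃ i : Fin 6, ∀ j, j ≠ i → j ≠ i + 1 →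
    (ζ * vert j).re < max (ζ * vert i).re (ζ * vert (i + 1)).re := by
  obtain ⟨⟨h1, h2⟩, ⟨h3, h4⟩, ⟨h5, h6⟩, ⟨h7, h8⟩⟩ := HexS.vertex_bounds
  have h : ζ.re ≠ 0 ∨ ζ.im ≠ 0 := by
    by_contra hc
    push Not at hc
    exact hζ (Complex.ext hc.1 hc.2)
  obtain ⟨i, hi⟩ := HexS.geo_six h1 h2 h3 h4 h5 h6 h7 h8 h
  refine ⟨i, fun j hj hj' => ?_⟩
  rw [val_eq, val_eq, val_eq]
  exact hi j hj hj'

theorem peak_exists (i : Fin 6) : ∃ ζ : ℂ, ∀ j, j ≠ i → (ζ * vert j).re < (ζ * vert i).re := by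
  obtain ⟨⟨h1, h2⟩, ⟨h3, h4⟩, ⟨h5, h6⟩, ⟨h7, h8⟩⟩ := HexS.vertex_bounds
  have key : ∀ (a b : ℝ) (j : Fin 6), ((⟨a, b⟩ : ℂ) * vert j).re =
      HexS.six a b (Hex.vtx 431 43).re (Hex.vtx 431 43).im (Hex.vtx 23 11).re (Hex.vtx 23 11).im j :=
    fun a b j => val_eq ⟨a, b⟩ j
  set x₁ := (Hex.vtx 431 43).re
  set y₁ := (Hex.vtx 431 43).im
  set x₂ := (Hex.vtx 23 11).re
  set y₂ := (Hex.vtx 23 11).im
  have fin : ∀ (a b : ℝ) (i : Fin 6), (∀ j, j ≠ i → HexS.six a b x₁ y₁ x₂ y₂ j < HexS.six a b x₁ y₁ x₂ y₂ i) →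
      ∃ ζ : ℂ, ∀ j, j ≠ i → (ζ * vert j).re < (ζ * vert i).re := fun a b i h =>
    ⟨⟨a, b⟩, fun j hj => by rw [key, key]; exact h j hj⟩
  fin_cases i
  · refine fin 1 0 _ fun j hj => ?_
    fin_cases j
    · exact absurd rfl hj
    · show 1 * x₁ - 0 * y₁ < 1
      linarith
    · show 1 * x₂ - 0 * y₂ < 1
      linarith
    · show -1 / 4 < (1 : ℝ)
      norm_num
    · show 1 * x₂ + 0 * y₂ < 1
      linarith
    · show 1 * x₁ + 0 * y₁ < 1
      linarith
  · refine fin 0.17 (-0.98) _ fun j hj => ?_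
    fin_cases j
    · show (0.17 : ℝ) < 0.17 * x₁ - -0.98 * y₁
      linarith
    · exact absurd rfl hj
    · show 0.17 * x₂ - -0.98 * y₂ < 0.17 * x₁ - -0.98 * y₁
      linarith
    · show -0.17 / 4 < 0.17 * x₁ - -0.98 * y₁
      linarith
    · show 0.17 * x₂ + -0.98 * y₂ < 0.17 * x₁ - -0.98 * y₁
      linarith
    · show 0.17 * x₁ + -0.98 * y₁ < 0.17 * x₁ - -0.98 * y₁
      linarith
  · refine fin 0 (-1) _ fun j hj => ?_
    fin_cases j
    · show (0 : ℝ) < 0 * x₂ - -1 * y₂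
      linarith
    · show 0 * x₁ - -1 * y₁ < 0 * x₂ - -1 * y₂
      linarith
    · exact absurd rfl hj
    · show -0 / 4 < 0 * x₂ - -1 * y₂
      linarith
    · show 0 * x₂ + -1 * y₂ < 0 * x₂ - -1 * y₂
      linarith
    · show 0 * x₁ + -1 * y₁ < 0 * x₂ - -1 * y₂
      linarith
  · refine fin (-1) 0 _ fun j hj => ?_
    fin_cases j
    · show (-1 : ℝ) < -(-1) / 4
      norm_num
    · show -1 * x₁ - 0 * y₁ < -(-1) / 4
      linarith
    · show -1 * x₂ - 0 * y₂ < -(-1) / 4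
      linarith
    · exact absurd rfl hj
    · show -1 * x₂ + 0 * y₂ < -(-1) / 4
      linarith
    · show -1 * x₁ + 0 * y₁ < -(-1) / 4
      linarith
  · refine fin 0 1 _ fun j hj => ?_
    fin_cases j
    · show (0 : ℝ) < 0 * x₂ + 1 * y₂
      linarith
    · show 0 * x₁ - 1 * y₁ < 0 * x₂ + 1 * y₂
      linarith
    · show 0 * x₂ - 1 * y₂ < 0 * x₂ + 1 * y₂
      linarith
    · show -0 / 4 < 0 * x₂ + 1 * y₂
      linarith
    · exact absurd rfl hj
    · show 0 * x₁ + 1 * y₁ < 0 * x₂ + 1 * y₂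
      linarith
  · refine fin 0.17 0.98 _ fun j hj => ?_
    fin_cases j
    · show (0.17 : ℝ) < 0.17 * x₁ + 0.98 * y₁
      linarith
    · show 0.17 * x₁ - 0.98 * y₁ < 0.17 * x₁ + 0.98 * y₁
      linarith
    · show 0.17 * x₂ - 0.98 * y₂ < 0.17 * x₁ + 0.98 * y₁
      linarith
    · show -0.17 / 4 < 0.17 * x₁ + 0.98 * y₁
      linarith
    · show 0.17 * x₂ + 0.98 * y₂ < 0.17 * x₁ + 0.98 * y₁
      linarith
    · exact absurd rfl hj

theorem orbit_coef (i : Fin 6) : Hex.coef (orbit i) 1 = vert i := by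
  have hneg : ∀ m L : ℕ, 0 < L → Hex.coef (HexS.unif m L (-1)) 1 = conj (Hex.vtx m L) := by
    intro m L hL
    have hP := HexS.unif_prob (m := m) (s := 1) hL
    have hP' := HexS.unif_prob (m := m) (s := -1) hL
    have hre := HexS.neg_om m L (fun x => (fourier 1 x : ℂ).re)
    have him := HexS.neg_om m L (fun x => (fourier 1 x : ℂ).im)
    have e1 : ∀ x : AddCircle (1 : ℝ), (fourier 1 (-x) : ℂ) = conj (fourier 1 x : ℂ) := by
      intro x
      rw [← fourier_neg, fourier_apply, fourier_apply]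
      congr 2
      simp
    simp only [e1, Complex.conj_re, Complex.conj_im] at hre him
    rw [HexS.int_re, HexS.int_re, HexS.unif_coef] at hre
    rw [integral_neg, HexS.int_im, HexS.int_im, HexS.unif_coef] at him
    apply Complex.ext
    · rw [Complex.conj_re, ← hre]
    · rw [Complex.conj_im, ← him]
  rw [vert_eq]
  fin_cases i
  · exact HexS.unif_coef.trans Hex.fin_v1
  · exact HexS.unif_coef
  · exact HexS.unif_coef
  · exact HexS.unif_coef.trans Hex.fin_v5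
  · exact hneg 23 11 (by norm_num)
  · exact hneg 431 43 (by norm_num)

theorem vert_ne (i : Fin 6) : vert i ≠ vert (i + 1) := by
  obtain ⟨ζ, hζ⟩ := peak_exists i
  intro h
  have hne : i + 1 ≠ i := by
    fin_cases i <;> decide
  have := hζ (i + 1) hne
  rw [← h] at this
  exact lt_irrefl _ this

theorem stabV (i : Fin 6) : HexS.StabV (vert i) (orbit i) := by
  have h1 := orbit_prob i
  have h2 := orbit_prob (i + 1)
  exact HexS.stabV_of (vert_ne i) (orbit_coef i) (orbit_coef (i + 1)) (stab i)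

theorem orbit_inv (i : Fin 6) : Hex.Inv (orbit i) := by
  have h1 := orbit_prob i
  have h2 : vert i ∈ Hex.hexagon := by
    rw [← hull_eq]
    exact subset_convexHull ℝ _ ⟨i, rfl⟩
  obtain ⟨μ, hμ, hc⟩ := Hex.fin_sub (n := 1) one_ne_zero h2
  rw [← HexS.stabV_eq (stabV i) hμ hc]
  exact Hex.fin_push hμ 1

theorem six : HexS.Six vert orbit where
  prob := orbit_prob
  coef := orbit_coef
  stab := stab
  stabV := stabV
  hull := fun n hn μ hμ => by
    have h1 := (Hex.final inputs n hn).1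
    have h2 : Hex.coef μ n ∈ Hex.hexagon := by
      rw [← h1]
      exact ⟨μ, hμ, rfl⟩
    rwa [← hull_eq] at h2

/-- The six orbits as finite sets. -/
noncomputable def sets : Fin 6 → Finset (AddCircle (1 : ℝ)) :=
  ![HexS.zs 1 1 1, HexS.zs 431 43 1, HexS.zs 23 11 1, HexS.zs 5 4 1, HexS.zs 23 11 (-1), HexS.zs 431 43 (-1)]

/-- The lengths of the six orbits. -/
def lens : Fin 6 → ℕ := ![1, 43, 11, 4, 11, 43]

theorem sixZ : HexS.SixZ vert orbit sets lens where
  toSix := six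
  orb := fun i => by
    obtain ⟨a1, h1⟩ := Hex.Cr.cyc_1.cub₁
    obtain ⟨a2, h2⟩ := Hex.Cr.cyc_1.cub₂
    obtain ⟨a3, h3⟩ := Hex.Cr.cyc_2.cub₂
    obtain ⟨a4, h4⟩ := Hex.Cr.cyc_3.cub₂
    fin_cases i
    · exact HexS.orb_unif Hex.Cr.cyc_1.pos₁ Hex.Cr.cyc_1.cyc₁ h1 (Or.inl rfl)
    · exact HexS.orb_unif Hex.Cr.cyc_1.pos₂ Hex.Cr.cyc_1.cyc₂ h2 (Or.inl rfl)
    · exact HexS.orb_unif Hex.Cr.cyc_2.pos₂ Hex.Cr.cyc_2.cyc₂ h3 (Or.inl rfl)
    · exact HexS.orb_unif Hex.Cr.cyc_3.pos₂ Hex.Cr.cyc_3.cyc₂ h4 (Or.inl rfl)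
    · exact HexS.orb_unif Hex.Cr.cyc_2.pos₂ Hex.Cr.cyc_2.cyc₂ h3 (Or.inr rfl)
    · exact HexS.orb_unif Hex.Cr.cyc_1.pos₂ Hex.Cr.cyc_1.cyc₂ h2 (Or.inr rfl)

/-- A measure with a supporting value has a mixture as its image. -/
theorem front_step {n : ℤ} (hn : n ≠ 0) {μ : Measure (AddCircle (1 : ℝ))} (hμ : Hex.Inv μ) {ζ : ℂ} (hζ : ζ ≠ 0)
    (h : ∀ ρ : Measure (AddCircle (1 : ℝ)), Hex.Inv ρ → (ζ * Hex.coef ρ n).re ≤ (ζ * Hex.coef μ n).re) :
    Mixture (μ.map fun x => n • x) := by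
  obtain ⟨ε, -, hall⟩ := HexS.conclN_all sixZ pair_exists hn
  have hpos : 0 < ‖ζ‖ := norm_pos_iff.mpr hζ
  have hnorm : ‖((‖ζ‖⁻¹ : ℝ) : ℂ) * ζ‖ = 1 := by
    rw [norm_mul, Complex.norm_real, Real.norm_eq_abs, abs_of_pos (inv_pos.mpr hpos), inv_mul_cancel₀ hpos.ne']
  have hc : Continuous fun _ : AddCircle (1 : ℝ) => (0 : ℝ) := continuous_const
  rcases hall _ hnorm (fun _ => 0) ((LipschitzWith.const (0 : ℝ)).weaken bot_le) μ hμ with h1 | ⟨ρ, hρ, -, hlt⟩
  · exact h1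
  · exfalso
    have hPμ := hμ.1
    have hPρ := hρ.1
    rw [HexS.int_Fn n _ hc, HexS.int_Fn n _ hc, integral_zero, integral_zero, add_zero, add_zero, mul_assoc,
      mul_assoc, Complex.re_ofReal_mul, Complex.re_ofReal_mul] at hlt
    have h2 := mul_le_mul_of_nonneg_left (h ρ hρ) (inv_nonneg.mpr hpos.le)
    linarith

theorem front_mix {n : ℤ} (hn : n ≠ 0) {μ : Measure (AddCircle (1 : ℝ))} (hμ : Hex.Inv μ)
    (hfr : Hex.coef μ n ∈ frontier Hex.hexagon) : Mixture (μ.map fun x => n • x) := by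
  have cA : ∀ μ : Measure (AddCircle (1 : ℝ)), Hex.coef (μ.map fun x => n • x) 1 = Hex.coef μ n := by
    intro μ
    rw [Hex.fin_push_coef, mul_one]
  have cB : ∀ μ : Measure (AddCircle (1 : ℝ)),
      Hex.coef (μ.map fun x => (-n) • x) 1 = conj (Hex.coef μ n) := by
    intro μ
    rw [Hex.fin_push_coef, mul_one, Hex.fin_conj]
  have up : ∀ P Q w : ℂ, ((Complex.I * conj (Q - P)) * w).re = ((Complex.I * conj (Q - P)) * P).re - Hex.lft P Q w := by
    intro P Q w
    unfold Hex.lft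
    simp only [Complex.mul_re, Complex.mul_im, Complex.I_re, Complex.I_im, Complex.conj_re, Complex.conj_im,
      Complex.sub_re, Complex.sub_im]
    ring
  have dn : ∀ P Q w : ℂ, (conj (Complex.I * conj (Q - P)) * w).re =
      ((Complex.I * conj (Q - P)) * P).re - Hex.lft P Q (conj w) := by
    intro P Q w
    rw [← up]
    simp only [Complex.mul_re, Complex.mul_im, Complex.I_re, Complex.I_im, Complex.conj_re, Complex.conj_im,
      Complex.sub_re, Complex.sub_im]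
    ring
  have ne0 : ∀ P Q : ℂ, P ≠ Q → Complex.I * conj (Q - P) ≠ 0 := by
    intro P Q h h0
    rcases mul_eq_zero.mp h0 with h1 | h1
    · exact Complex.I_ne_zero h1
    · exact h (sub_eq_zero.mp ((map_eq_zero _).mp h1)).symm
  have n1 : (1 : ℂ) ≠ Hex.vtx 431 43 := by
    have := vert_ne 0
    rw [vert_eq] at this
    exact this
  have n2 : Hex.vtx 431 43 ≠ Hex.vtx 23 11 := by
    have := vert_ne 1
    rw [vert_eq] at this
    exact this
  have n3 : Hex.vtx 23 11 ≠ -1 / 4 := by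
    have := vert_ne 2
    rw [vert_eq] at this
    exact this
  have upper : ∀ P Q : ℂ, P ≠ Q → (∀ ρ : Measure (AddCircle (1 : ℝ)), Hex.Inv ρ → 0 ≤ Hex.lft P Q (Hex.coef ρ n)) →
      Hex.lft P Q (Hex.coef μ n) ≤ 0 → Mixture (μ.map fun x => n • x) := by
    intro P Q hPQ hρ hle
    refine front_step hn hμ (ne0 P Q hPQ) fun ρ h => ?_
    rw [up P Q (Hex.coef ρ n), up P Q (Hex.coef μ n)]
    have := hρ ρ h
    linarith
  have lower : ∀ P Q : ℂ, P ≠ Q →
      (∀ ρ : Measure (AddCircle (1 : ℝ)), Hex.Inv ρ → 0 ≤ Hex.lft P Q (conj (Hex.coef ρ n))) →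
      Hex.lft P Q (conj (Hex.coef μ n)) ≤ 0 → Mixture (μ.map fun x => n • x) := by
    intro P Q hPQ hρ hle
    refine front_step hn hμ (ζ := conj (Complex.I * conj (Q - P))) (fun h0 => ne0 P Q hPQ ((map_eq_zero conj).mp h0))
      fun ρ h => ?_
    rw [dn P Q (Hex.coef ρ n), dn P Q (Hex.coef μ n)]
    have := hρ ρ h
    linarith
  have u1 : ∀ ρ : Measure (AddCircle (1 : ℝ)), Hex.Inv ρ → 0 ≤ Hex.lft 1 (Hex.vtx 431 43) (Hex.coef ρ n) := by
    intro ρ h
    have := (inputs.e1 _ (Hex.fin_push h n)).1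
    rwa [Hex.fin_v1, cA] at this
  have u2 : ∀ ρ : Measure (AddCircle (1 : ℝ)), Hex.Inv ρ →
      0 ≤ Hex.lft (Hex.vtx 431 43) (Hex.vtx 23 11) (Hex.coef ρ n) := by
    intro ρ h
    have := (inputs.e2 _ (Hex.fin_push h n)).1
    rwa [cA] at this
  have u3 : ∀ ρ : Measure (AddCircle (1 : ℝ)), Hex.Inv ρ → 0 ≤ Hex.lft (Hex.vtx 23 11) (-1 / 4) (Hex.coef ρ n) := by
    intro ρ h
    have := (inputs.e3 _ (Hex.fin_push h n)).1
    rwa [Hex.fin_v5, cA] at this
  have l1 : ∀ ρ : Measure (AddCircle (1 : ℝ)), Hex.Inv ρ →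
      0 ≤ Hex.lft 1 (Hex.vtx 431 43) (conj (Hex.coef ρ n)) := by
    intro ρ h
    have := (inputs.e1 _ (Hex.fin_push h (-n))).1
    rwa [Hex.fin_v1, cB] at this
  have l2 : ∀ ρ : Measure (AddCircle (1 : ℝ)), Hex.Inv ρ →
      0 ≤ Hex.lft (Hex.vtx 431 43) (Hex.vtx 23 11) (conj (Hex.coef ρ n)) := by
    intro ρ h
    have := (inputs.e2 _ (Hex.fin_push h (-n))).1
    rwa [cB] at this
  have l3 : ∀ ρ : Measure (AddCircle (1 : ℝ)), Hex.Inv ρ →
      0 ≤ Hex.lft (Hex.vtx 23 11) (-1 / 4) (conj (Hex.coef ρ n)) := by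
    intro ρ h
    have := (inputs.e3 _ (Hex.fin_push h (-n))).1
    rwa [Hex.fin_v5, cB] at this
  rcases le_or_gt (Hex.lft 1 (Hex.vtx 431 43) (Hex.coef μ n)) 0 with q | q1
  · exact upper _ _ n1 u1 q
  rcases le_or_gt (Hex.lft (Hex.vtx 431 43) (Hex.vtx 23 11) (Hex.coef μ n)) 0 with q | q2
  · exact upper _ _ n2 u2 q
  rcases le_or_gt (Hex.lft (Hex.vtx 23 11) (-1 / 4) (Hex.coef μ n)) 0 with q | q3
  · exact upper _ _ n3 u3 q
  rcases le_or_gt (Hex.lft 1 (Hex.vtx 431 43) (conj (Hex.coef μ n))) 0 with q | q4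
  · exact lower _ _ n1 l1 q
  rcases le_or_gt (Hex.lft (Hex.vtx 431 43) (Hex.vtx 23 11) (conj (Hex.coef μ n))) 0 with q | q5
  · exact lower _ _ n2 l2 q
  rcases le_or_gt (Hex.lft (Hex.vtx 23 11) (-1 / 4) (conj (Hex.coef μ n))) 0 with q | q6
  · exact lower _ _ n3 l3 q
  exact absurd (Hex.geo_int inputs.v431 inputs.v23 q1 q2 q3 q4 q5 q6) hfr.2

/-- (1) For every `n ≠ 0` the set of the values `∫ e(n x) dμ(x)` over all probability measures `μ` on `ℝ / ℤ` preserved by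
`x ↦ 2 x` and `x ↦ 3 x` is the convex hull of the six vertices. If the value of `μ` lies on the boundary of this set
then the image of `μ` under `x ↦ n x` is a mixture of two neighbouring orbit measures, so `μ` is supported on a finite
set. (2) The six orbit measures are such measures, their values for `n = 1` are the vertices, and the vertices are in
convex position. (3) Stability: for every `n ≠ 0` there is a constant `C` such that for every side and every such `μ`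
there is such a measure `ρ`, whose image under `x ↦ n x` is a mixture of the two orbit measures at the ends of the
side and whose distance to `μ`, tested on Lipschitz functions, is at most `C` times the distance of the value of `μ`
to the side. (4) For every `n ≠ 0` there is `ε > 0` such that for all functions `F(x) = Re (ζ e(n x)) + g(x)` with
`|ζ| = 1` and `g` of Lipschitz constant at most `ε`, every such measure `μ` either has as its image under `x ↦ n x` a
mixture of two neighbouring orbit measures, or gives `F` a smaller integral than some such measure `ρ` with this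
property. -/
theorem result :
    (∀ n : ℤ, n ≠ 0 →
      {w : ℂ | ∃ μ : Measure (AddCircle (1 : ℝ)), Invariant23 μ ∧ ∫ x, fourier n x ∂μ = w} = hull ∧
      ∀ μ : Measure (AddCircle (1 : ℝ)), Invariant23 μ → ∫ x, fourier n x ∂μ ∈ frontier hull →
        Mixture (μ.map fun x => n • x) ∧ ∃ T : Set (AddCircle (1 : ℝ)), T.Finite ∧ μ Tᶜ = 0) ∧
    (∀ i : Fin 6, Invariant23 (orbit i) ∧ ∫ x, fourier 1 x ∂(orbit i) = vert i ∧
      ∃ ζ : ℂ, ∀ j, j ≠ i → (ζ * vert j).re < (ζ * vert i).re) ∧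
    (∀ n : ℤ, n ≠ 0 → ∃ C : ℝ, ∀ (i : Fin 6) (μ : Measure (AddCircle (1 : ℝ))), Invariant23 μ →
      ∃ ρ : Measure (AddCircle (1 : ℝ)), Invariant23 ρ ∧
        (∃ θ ∈ Set.Icc (0 : ℝ) 1,
          (ρ.map fun x => n • x) = ENNReal.ofReal θ • orbit i + ENNReal.ofReal (1 - θ) • orbit (i + 1)) ∧
        ∀ (K : NNReal) (g : AddCircle (1 : ℝ) → ℝ), LipschitzWith K g → |∫ x, g x ∂μ - ∫ x, g x ∂ρ| ≤
          C * K * Metric.infDist (∫ x, fourier n x ∂μ) (segment ℝ (vert i) (vert (i + 1)))) ∧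
    ∀ n : ℤ, n ≠ 0 → ∃ ε : NNReal, 0 < ε ∧ ∀ (ζ : ℂ) (g : AddCircle (1 : ℝ) → ℝ), ‖ζ‖ = 1 → LipschitzWith ε g →
      ∀ μ : Measure (AddCircle (1 : ℝ)), Invariant23 μ → Mixture (μ.map fun x => n • x) ∨
        ∃ ρ : Measure (AddCircle (1 : ℝ)), Invariant23 ρ ∧ Mixture (ρ.map fun x => n • x) ∧
          ∫ x, ((ζ * fourier n x).re + g x) ∂μ < ∫ x, ((ζ * fourier n x).re + g x) ∂ρ := by
  refine ⟨fun n hn => ?_, fun i => ⟨orbit_inv i, orbit_coef i, peak_exists i⟩, fun n hn => ?_, fun n hn => ?_⟩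
  · rw [hull_eq]
    obtain ⟨h1, h2⟩ := Hex.final inputs n hn
    exact ⟨h1, fun μ hμ hfr => ⟨front_mix hn hμ hfr, h2 μ hμ hfr⟩⟩
  · have h : ∀ i : Fin 6, ∃ C : ℝ, 0 ≤ C ∧ ∀ μ : Measure (AddCircle (1 : ℝ)), Hex.Inv μ →
        ∃ ρ : Measure (AddCircle (1 : ℝ)), Hex.Inv ρ ∧ (∃ θ ∈ Set.Icc (0 : ℝ) 1,
          (ρ.map fun x => n • x) = ENNReal.ofReal θ • orbit i + ENNReal.ofReal (1 - θ) • orbit (i + 1)) ∧
        ∀ (K : NNReal) (g : AddCircle (1 : ℝ) → ℝ), LipschitzWith K g → |∫ x, g x ∂μ - ∫ x, g x ∂ρ| ≤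
          C * K * Metric.infDist (Hex.coef μ n) (segment ℝ (vert i) (vert (i + 1))) := by
      intro i
      have h1 := orbit_prob i
      have h2 := orbit_prob (i + 1)
      exact HexS.stab_all (sixZ.orb i) (sixZ.orb (i + 1)) (stab i) hn
    choose C hC h using h
    refine ⟨∑ i, C i, fun i μ hμ => ?_⟩
    obtain ⟨ρ, hρ, hm, h2⟩ := h i μ hμ
    refine ⟨ρ, hρ, hm, fun K g hg => (h2 K g hg).trans ?_⟩
    have hle : C i ≤ ∑ i, C i := Finset.single_le_sum (fun j _ => hC j) (Finset.mem_univ i)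
    have hd : 0 ≤ Metric.infDist (Hex.coef μ n) (segment ℝ (vert i) (vert (i + 1))) := Metric.infDist_nonneg
    exact mul_le_mul_of_nonneg_right (mul_le_mul_of_nonneg_right hle K.coe_nonneg) hd
  · obtain ⟨ε, hε, h⟩ := HexS.conclN_all sixZ pair_exists hn
    exact ⟨ε, hε, fun ζ g hζ hg μ hμ => h ζ hζ g hg μ hμ⟩

end Pool.Agent.Results.MP_e27144_an.Hexagon
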