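import Pool.Agent.RSet.Det
import Pool.Agent.RSet.MovD
import Pool.Agent.RSet.PiRel
import Pool.Agent.RSet.PiPro

/-!
# Invariant measures of `x ↦ q x` and moving targets for `x ↦ p x`

Let `p, q ≥ 2` be integers with `p ^ m ≠ q ^ n` for all `m, n ≥ 1` (for example `2` and `3`) and let `T = ℝ / ℤ`. All measures
are Borel probability measures and nothing is assumed on their entropy.
1. For `L`, `r`, `ε` there are `N`, `Q` such that for ALL `y ∈ T` with `Q q ^ N y ≠ 0`, ALL sequences `c` in `T` and ALL sets `A` of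
   natural numbers with gaps at most `L`: for all but `ε N` of the `n < N` the set `{p ^ k q ^ n y + c k : k ∈ A}` meets every
   ball of radius `r`.
2. Density form of 1 for ALL `y`: every ball of radius `r` is met for a positive proportion of the `k < S`, for all but
   `ε N + 2 N g` of the `n < N`, where `g` is the proportion of the `s < S` for which `p ^ s y` is near a point of order `m`.
3. A translate of a closed set which is invariant under `×p` is a null set for every atomless measure which is invariant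
   under `×q`.
4. Let `ρ 0, …, ρ d` be atomless and invariant under `×q` and let `ρ 1, …, ρ d` be invariant under `×p` as well. For every
   sequence `c` in `T ^ (d + 1)` and every `A` with bounded gaps the set `{p ^ k x + c k : k ∈ A}` is dense in `T ^ (d + 1)` for
   almost every `x`. The same for the set `A` of the visits of a random point of any system to a set; then `c` may depend on
   this point.
5. If all the `ρ i` are invariant under both maps, then `A` can be any set of positive upper Banach density; there is a uniform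
   finitary form with a positive proportion of hits, and if `A` does not have density zero, then neither does the set of hits
   of any open set.
6. Translates of singular measures.
7. Invariant sets of products with a measure which is invariant under both maps.
-/

open MeasureTheory Filter Topology Set
open scoped ENNReal NNReal

namespace Pool.Agent.Results.MP_e27144_an.MovingTargets

open Pool.Agent.NSet Pool.Agent.RSet

theorem ncard_eq (D : Set ℕ) (n : ℕ) : ({k : ℕ | k < n ∧ k ∈ D}.ncard) = cnt D n := by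
  classical
  unfold cnt
  rw [← Set.ncard_coe_finset]
  congr 1
  ext k
  simp

/-- **Main theorem.** -/
theorem result (p q : ℕ) (hp : 2 ≤ p) (hq : 2 ≤ q) (hpq : ∀ m n : ℕ, 0 < m → 0 < n → p ^ m ≠ q ^ n) :
    -- (1) moving targets, uniform form
    (∀ (L : ℕ) (r ε : ℝ), 0 < r → 0 < ε → ∃ N Q : ℕ, 0 < N ∧ 0 < Q ∧ ∀ y : AddCircle (1 : ℝ), (Q * q ^ N) • y ≠ 0 →
      ∀ A : Set ℕ, (∀ m : ℕ, ∃ k ∈ A, m ≤ k ∧ k ≤ m + L) → ∀ c : ℕ → AddCircle (1 : ℝ),
        ({n : ℕ | n < N ∧ ∃ z, ∀ k ∈ A, r ≤ dist (p ^ k • q ^ n • y + c k) z}.ncard : ℝ) ≤ ε * N) ∧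
    -- (2) density form
    (∀ (L : ℕ) (r ε : ℝ), 0 < r → 0 < ε → ∃ N m : ℕ, 0 < N ∧ 0 < m ∧ ∀ κ : ℝ, 0 < κ → ∃ (S₀ : ℕ) (τ : ℝ), 0 < τ ∧
      ∀ S : ℕ, S₀ ≤ S → ∀ y : AddCircle (1 : ℝ), ∀ A : Set ℕ, (∀ m : ℕ, ∃ k ∈ A, m ≤ k ∧ k ≤ m + L) →
      ∀ c : ℕ → AddCircle (1 : ℝ),
        ({n : ℕ | n < N ∧ ∃ z, ({k : ℕ | k < S ∧ k ∈ A ∧ dist (p ^ k • q ^ n • y + c k) z < r}.ncard : ℝ) <
          τ * S}.ncard : ℝ) ≤ ε * N + 2 * N * (({s : ℕ | s < S ∧ ‖m • p ^ s • y‖ < κ}.ncard : ℝ) / S)) ∧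
    -- (3) translates of closed sets which are invariant under `×p`
    (∀ E : Set (AddCircle (1 : ℝ)), IsClosed E → E ≠ univ → (∀ x ∈ E, p • x ∈ E) →
      ∀ ρ : Measure (AddCircle (1 : ℝ)), IsProbabilityMeasure ρ →
        MeasurePreserving (fun t : AddCircle (1 : ℝ) => q • t) ρ ρ → (∀ t, ρ {t} = 0) →
        ∀ x : AddCircle (1 : ℝ), ρ {t | x + t ∈ E} = 0) ∧
    -- (4) atomless measures invariant under `×q`, all but one of them invariant under `×p`
    (∀ (d : ℕ) (ρ : Fin (d + 1) → Measure (AddCircle (1 : ℝ))), (∀ i, IsProbabilityMeasure (ρ i)) →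
      (∀ i, MeasurePreserving (fun t : AddCircle (1 : ℝ) => q • t) (ρ i) (ρ i)) → (∀ i t, ρ i {t} = 0) →
      (∀ i, i ≠ 0 → MeasurePreserving (fun t : AddCircle (1 : ℝ) => p • t) (ρ i) (ρ i)) →
      -- sets with bounded gaps
      (∀ (A : Set ℕ) (L : ℕ), (∀ m : ℕ, ∃ k ∈ A, m ≤ k ∧ k ≤ m + L) → ∀ c : ℕ → Fin (d + 1) → AddCircle (1 : ℝ),
        ∀ᵐ x ∂(Measure.pi ρ),
          Dense {y : Fin (d + 1) → AddCircle (1 : ℝ) | ∃ k ∈ A, y = fun i => p ^ k • x i + c k i}) ∧
      -- visits of a random point of a system to a set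
      (∀ (X : Type) [MeasurableSpace X] (μ : Measure X) (S : X → X) (B : Set X), IsProbabilityMeasure μ →
        MeasurePreserving S μ μ → MeasurableSet B → ∀ c : ℕ → X → Fin (d + 1) → AddCircle (1 : ℝ),
        (∀ k, Measurable (c k)) → ∀ᵐ z ∂(μ.prod (Measure.pi ρ)), (∃ k : ℕ, S^[k] z.1 ∈ B) →
          Dense {y : Fin (d + 1) → AddCircle (1 : ℝ) |
            ∃ k : ℕ, S^[k] z.1 ∈ B ∧ y = fun i => p ^ k • z.2 i + c k z.1 i})) ∧
    -- (5) atomless measures invariant under both maps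
    (∀ (d : ℕ) (ρ : Fin (d + 1) → Measure (AddCircle (1 : ℝ))), (∀ i, IsProbabilityMeasure (ρ i)) →
      (∀ i, MeasurePreserving (fun t : AddCircle (1 : ℝ) => q • t) (ρ i) (ρ i)) → (∀ i t, ρ i {t} = 0) →
      (∀ i, MeasurePreserving (fun t : AddCircle (1 : ℝ) => p • t) (ρ i) (ρ i)) →
      -- finite sets of times, a positive proportion of hits
      (∀ r δ ε : ℝ, 0 < r → 0 < δ → 0 < ε → ∃ (M : ℕ) (κ : ℝ), 0 < M ∧ 0 < κ ∧ ∀ (S s : ℕ) (F : Finset ℕ), M ≤ S →
        (∀ k ∈ F, s ≤ k ∧ k < s + S) → δ * S ≤ F.card → ∀ c : ℕ → Fin (d + 1) → AddCircle (1 : ℝ),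
          (Measure.pi ρ).real {x | ∃ z,
            ({k : ℕ | k ∈ F ∧ dist (fun i => p ^ k • x i + c k i) z < r}.ncard : ℝ) < κ * F.card} ≤ ε) ∧
      -- sets of positive upper Banach density
      (∀ (A : Set ℕ) (δ : ℝ), 0 < δ → (∀ M : ℕ, ∃ s : ℕ, δ * M ≤ ({n : ℕ | n < M ∧ s + n ∈ A}.ncard : ℝ)) →
        ∀ c : ℕ → Fin (d + 1) → AddCircle (1 : ℝ), ∀ᵐ x ∂(Measure.pi ρ),
          Dense {y : Fin (d + 1) → AddCircle (1 : ℝ) | ∃ k ∈ A, y = fun i => p ^ k • x i + c k i}) ∧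
      -- sets which do not have density zero
      (∀ A : Set ℕ, ¬ Tendsto (fun n : ℕ => ({k : ℕ | k < n ∧ k ∈ A}.ncard : ℝ) / n) atTop (𝓝 0) →
        ∀ c : ℕ → Fin (d + 1) → AddCircle (1 : ℝ), ∀ᵐ x ∂(Measure.pi ρ),
          ∀ J : Set (Fin (d + 1) → AddCircle (1 : ℝ)), IsOpen J → J.Nonempty →
            ¬ Tendsto (fun n : ℕ => ({k : ℕ | k < n ∧ k ∈ A ∧ (fun i => p ^ k • x i + c k i) ∈ J}.ncard : ℝ) / n)
              atTop (𝓝 0))) ∧
    -- (6) translates of singular measures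
    (∀ μ ν : Measure (AddCircle (1 : ℝ)), IsProbabilityMeasure μ → IsProbabilityMeasure ν →
      MeasurePreserving (fun t : AddCircle (1 : ℝ) => p • t) μ μ →
      MeasurePreserving (fun t : AddCircle (1 : ℝ) => p • t) ν ν → μ ⟂ₘ volume → ∀ t : AddCircle (1 : ℝ),
      (Dense (range fun n : ℕ => p ^ n • t) ∨
        MeasurePreserving (fun t : AddCircle (1 : ℝ) => q • t) μ μ ∧ ∀ m : ℕ, 0 < m → m • t ≠ 0) →
      μ.map (fun x => t + x) ⟂ₘ ν) ∧
    -- (7) invariant sets of products with a measure invariant under both maps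
    (∀ ρ : Measure (AddCircle (1 : ℝ)), IsProbabilityMeasure ρ →
      MeasurePreserving (fun t : AddCircle (1 : ℝ) => p • t) ρ ρ →
      MeasurePreserving (fun t : AddCircle (1 : ℝ) => q • t) ρ ρ → (∀ t, ρ {t} = 0) →
      ∀ (X : Type) [MeasurableSpace X] (μ : Measure X) (S : X → X) (A : Set (X × AddCircle (1 : ℝ))),
        IsProbabilityMeasure μ → MeasurePreserving S μ μ → MeasurableSet A →
        (∀ x t, (S x, p • t) ∈ A ↔ (x, t) ∈ A) →
        ∀ᵐ x ∂μ, ρ {t | (x, t) ∈ A} ≠ 0 → ∀ J : Set (AddCircle (1 : ℝ)), IsOpen J → J.Nonempty →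
          ρ ({t | (x, t) ∈ A} ∩ J) ≠ 0) := by
  have h : MI p q := mi_of hp hq hpq
  refine ⟨?_, ?_, ?_, ?_, ?_, ?_, ?_⟩
  · intro L r ε hr hε
    obtain ⟨N, Q, hN, hQ, hy⟩ := mov_syn h L hr hε
    refine ⟨N, Q, hN, hQ, fun y hy0 A hA c => ?_⟩
    have h2 := hy y hy0 A hA c
    rw [← ncard_eq] at h2
    exact h2
  · intro L r ε hr hε
    obtain ⟨N, m, hN, hm, hκ⟩ := mov_dens h L hr hε
    refine ⟨N, m, hN, hm, fun κ hκ0 => ?_⟩
    obtain ⟨S₀, τ, -, hτ, hS⟩ := hκ κ hκ0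
    refine ⟨S₀, τ, hτ, fun S hS0 y A hA c => ?_⟩
    have h2 := hS S hS0 y A hA c
    simp only [← ncard_eq] at h2
    exact h2
  · intro E hE hne hpE ρ _ hρ hat x
    rw [measure_eq_zero_iff_ae_notMem]
    have h4 := syn_dense h univ 0 (fun n => ⟨n, mem_univ n, le_refl n, le_refl n⟩) (fun k => p ^ k • x) ρ hρ hat
    filter_upwards [h4] with t ht
    refine not_mem_of_dense hE hne hpE (t := x + t) (ht.mono ?_)
    rintro y ⟨k, -, rfl⟩
    refine ⟨k, ?_⟩
    show p ^ k • (x + t) = p ^ k • t + p ^ k • x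
    rw [smul_add, add_comm]
  · intro d ρ _ hρq hat hρp
    constructor
    · intro A L hA c
      exact syn_of_all hp (Measure.pi ρ) (fun c => pi_moving hq ρ hρq (pi_dense_zero h d ρ hρp hρq hat) c) A L hA c
    · intro X _ μ S B _ hS hB c hc
      exact rel_pi h μ hS hB ρ hρp hρq hat c hc
  · intro d ρ _ hρq hat hρp
    refine ⟨?_, ?_, ?_⟩
    · intro r δ ε hr hδ hε
      exact pro_all h ρ hρp hρq hat hr hδ hε
    · intro A δ hδ hA c
      refine ban_dense h ρ hρp hρq hat A hδ (fun M => ?_) c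
      obtain ⟨s, hs⟩ := hA M
      refine ⟨s, ?_⟩
      rw [← ncard_eq]
      exact hs
    · intro A hA c
      simp only [ncard_eq] at hA
      filter_upwards [upp_all h ρ hρp hρq hat A hA c] with x hx J hJ hJ0 hlim
      refine hx J hJ hJ0 ?_
      have e : ∀ n : ℕ, ({k : ℕ | k < n ∧ k ∈ A ∧ (fun i => p ^ k • x i + c k i) ∈ J}.ncard) =
          cnt {k | k ∈ A ∧ pt p c k x ∈ J} n := fun n => ncard_eq {k | k ∈ A ∧ pt p c k x ∈ J} n
      simp only [e] at hlim
      exact hlim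
  · intro μ ν _ _ hμ hν hs t ht
    rcases ht with ht | ⟨hμq, ht⟩
    · exact det_trans hp ht μ hμ hs ν hν
    · by_contra hcon
      obtain ⟨k, κ, h2, h3⟩ := ex_overlap hcon
      have hk : ((k : ℝ≥0) + 1)⁻¹ ≠ 0 := by positivity
      obtain ⟨m, hm, hmt⟩ := bounded_order h (closed_Ov μ (closed_inv p) _) (Ov_ne hp μ hs hk)
        (inv_Ov hμ (fun ν hν => map_Inv p hν) _) (inv_Ov hμq (fun ν hν => map_Inv q hν) _)
      exact ht m hm (hmt t ⟨⟨ν, inferInstance⟩, hν, κ, h2, h3⟩)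
  · intro ρ _ hρp hρq hat X _ μ S A _ hS hA hinv
    refine comp_support' h μ hS ρ hρp hρq hat hA ?_
    ext z
    exact hinv z.1 z.2

end Pool.Agent.Results.MP_e27144_an.MovingTargets
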