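import Pool.Agent.LLN.Main
import Pool.Agent.LLN.Corr
import Pool.Agent.Omr.Var
import Pool.Agent.LLN.Seq
import Pool.Agent.PE.OneMap

/-!
# Rates in the law of large numbers for one of the maps `x ↦ 2 x`, `x ↦ 3 x`

Let `{p, q} = {2, 3}` and let `μ` be a probability measure on the circle without atoms.

* If `μ` is invariant under `×q` and the averages of the characters along `×p` converge completely (with respect to `μ`)
  to the Fourier coefficients of a measure `ρ`, along a sequence of times with gaps at most `(log N) ^ κ`, `κ < 3 / 2`,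
  then `ρ` is at least half of Lebesgue measure, and it is Lebesgue measure if it is ergodic under `×p`.
* Hence, if both maps preserve `μ`, it is Lebesgue measure if the averages along ONE of them converge completely along
  such a sequence, for example if the sums of the first `N` autocorrelations of each character under this map are
  `O((log N) ^ β)`, `β < 1 / 2`, in particular if they are summable (mixing of the characters with a summable rate).
-/

open Set Filter Topology MeasureTheory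
open scoped ENNReal NNReal

namespace Pool.Agent.Results.MP_e27144_an.OneMapRates

open Pool.Agent.LLN

/-- Fourier coefficient `∫ e(m x) dμ`. -/
noncomputable def coef (μ : Measure (AddCircle (1 : ℝ))) (m : ℤ) : ℂ := ∫ x, fourier m x ∂μ

/-- The average `(1 / N) ∑_{i < N} e(m p ^ i x)`. -/
noncomputable def avg (p : ℕ) (m : ℤ) (N : ℕ) (x : AddCircle (1 : ℝ)) : ℂ :=
  (N : ℂ)⁻¹ * ∑ i ∈ Finset.range N, fourier m (p ^ i • x)

/-- The averages of the characters along `×p` converge completely with respect to `μ` to the Fourier coefficients of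
`ρ`, along some sequence of times with gaps at most `(log N) ^ κ`, for some `κ < 3 / 2`. -/
def Complete (p : ℕ) (μ ρ : Measure (AddCircle (1 : ℝ))) : Prop :=
  ∃ κ : ℝ, κ < 3 / 2 ∧ ∃ N : ℕ → ℕ, StrictMono N ∧
    (∀ᶠ j in atTop, (N (j + 1) : ℝ) ≤ N j + Real.log (N j) ^ κ) ∧
    ∀ m : ℤ, ∀ η : ℝ, 0 < η →
      Summable fun j : ℕ => (μ {x | η ≤ ‖avg p m (N j) x - coef ρ m‖}).toReal

theorem coef_neg (μ : Measure (AddCircle (1 : ℝ))) (n : ℤ) : coef μ (-n) = (starRingEnd ℂ) (coef μ n) := by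
  unfold coef
  rw [← integral_conj]
  simp only [fourier_neg]

theorem coef_vol {n : ℤ} (hn : n ≠ 0) : coef (volume : Measure (AddCircle (1 : ℝ))) n = 0 :=
  integral_eq_zero_of_add_right_eq_neg (μ := (volume : Measure (AddCircle (1 : ℝ))))
    (fourier_add_half_inv_index hn (by norm_num : (0 : ℝ) < 1))

/-- For Lebesgue measure the correlations of two characters under `×p` are zero with at most one exception. -/
theorem vol_pair {p : ℕ} (hp : 2 ≤ p) (a b : ℤ) (g : ℕ) :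
    ‖coef (volume : Measure (AddCircle (1 : ℝ))) (a + (p : ℤ) ^ g * b) -
      coef (volume : Measure (AddCircle (1 : ℝ))) a * coef (volume : Measure (AddCircle (1 : ℝ))) b‖ ≤
      (1 + |(a : ℝ)|) ^ 2 * (1 + (g : ℝ)) ^ (-(2 : ℝ)) := by
  have hpos : (0 : ℝ) ≤ (1 + |(a : ℝ)|) ^ 2 * (1 + (g : ℝ)) ^ (-(2 : ℝ)) := by positivity
  have hone : coef (volume : Measure (AddCircle (1 : ℝ))) 0 = 1 := by
    unfold coef
    simp [measureReal_def]
  rcases eq_or_ne b 0 with rfl | hb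
  · rw [mul_zero, add_zero, hone, mul_one, sub_self, norm_zero]
    exact hpos
  rw [coef_vol hb, mul_zero, sub_zero]
  by_cases h0 : a + (p : ℤ) ^ g * b = 0
  · rw [h0, hone, norm_one]
    have hg : (g : ℝ) ≤ |(a : ℝ)| := by
      have h1 : (p : ℤ) ^ g * b = -a := by linarith
      have h2 : (g : ℤ) ≤ |a| := by
        have h3 : |a| = (p : ℤ) ^ g * |b| := by
          have h4 : |a| = |(p : ℤ) ^ g * b| := by rw [h1, abs_neg]
          rw [h4, abs_mul, abs_of_nonneg (by positivity)]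
        have h5 : (1 : ℤ) ≤ |b| := Int.one_le_abs hb
        have h6 : (g : ℤ) ≤ (p : ℤ) ^ g := by
          have h7 : g < p ^ g := Nat.lt_pow_self (by omega)
          exact_mod_cast h7.le
        have h8 : (0 : ℤ) ≤ (p : ℤ) ^ g := by positivity
        rw [h3]
        nlinarith
      have h9 : ((g : ℤ) : ℝ) ≤ ((|a| : ℤ) : ℝ) := by exact_mod_cast h2
      simpa using h9
    have h1 : (1 : ℝ) + g ≤ 1 + |(a : ℝ)| := by linarith
    have h2 : (0 : ℝ) < 1 + (g : ℝ) := by positivity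
    rw [Real.rpow_neg h2.le, show (2 : ℝ) = ((2 : ℕ) : ℝ) by norm_num, Real.rpow_natCast]
    rw [← div_eq_mul_inv, le_div_iff₀ (by positivity), one_mul]
    exact pow_le_pow_left₀ h2.le h1 2
  · rw [coef_vol h0, norm_zero]
    exact hpos

theorem summable_rate {s : ℝ} (hs : 1 < s) : Summable fun g : ℕ => (1 + (g : ℝ)) ^ (-s) := by
  have h1 : Summable fun n : ℕ => (n : ℝ) ^ (-s) := by
    simpa using (Real.summable_nat_rpow (p := -s)).2 (by linarith)
  have h2 := (summable_nat_add_iff 1).2 h1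
  refine h2.congr fun g => ?_
  push_cast
  rw [add_comm]

/-- Both maps preserve `μ`: the equivalent conditions. -/
theorem tfae {μ : Measure (AddCircle (1 : ℝ))} [IsProbabilityMeasure μ]
    (h2 : MeasurePreserving (fun x : AddCircle (1 : ℝ) => (2 : ℕ) • x) μ μ)
    (h3 : MeasurePreserving (fun x : AddCircle (1 : ℝ) => (3 : ℕ) • x) μ μ)
    (hat : ∀ x, μ {x} = 0) {p : ℕ} (hp : p = 2 ∨ p = 3) :
    List.TFAE [
      μ = volume,
      ∃ β : ℝ, β < 1 / 2 ∧ ∀ m : ℤ, ∃ C : ℝ, ∀ N : ℕ, 1 ≤ N →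
        ∑ g ∈ Finset.range N, ‖coef μ (m * ((p : ℤ) ^ g - 1)) - (‖coef μ m‖ : ℂ) ^ 2‖ ≤
          C * (1 + Real.log N) ^ β,
      ∀ a b : ℤ, Summable fun g : ℕ => ‖coef μ (a + (p : ℤ) ^ g * b) - coef μ a * coef μ b‖,
      ∃ s : ℝ, 1 < s ∧ ∀ a b : ℤ, ∃ C : ℝ, ∀ g : ℕ,
        ‖coef μ (a + (p : ℤ) ^ g * b) - coef μ a * coef μ b‖ ≤ C * (1 + (g : ℝ)) ^ (-s),
      ∃ β : ℝ, β < 1 / 2 ∧ ∀ m : ℤ, ∃ (r : ℕ) (C : ℝ), ∀ N : ℕ, 1 ≤ N →
        ∫ x, ‖avg p m N x - coef μ m‖ ^ r ∂μ ≤ C * (1 + Real.log N) ^ β / N,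
      Complete p μ μ] := by
  have hp2 : 2 ≤ p := by rcases hp with rfl | rfl <;> norm_num
  have hpμ : MeasurePreserving (fun x : AddCircle (1 : ℝ) => p • x) μ μ := by
    rcases hp with rfl | rfl <;> assumption
  tfae_have 1 → 4 := by
    rintro rfl
    exact ⟨2, by norm_num, fun a b => ⟨(1 + |(a : ℝ)|) ^ 2, fun g => vol_pair hp2 a b g⟩⟩
  tfae_have 4 → 3 := by
    rintro ⟨s, hs, h⟩ a b
    obtain ⟨C, hC⟩ := h a b
    exact Summable.of_nonneg_of_le (fun _ => norm_nonneg _) hC ((summable_rate hs).mul_left C)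
  tfae_have 3 → 2 := by
    intro h
    refine ⟨0, by norm_num, fun m => ?_⟩
    have h1 : Summable fun g : ℕ => ‖coef μ (m * ((p : ℤ) ^ g - 1)) - (‖coef μ m‖ : ℂ) ^ 2‖ := by
      refine (h (-m) m).congr fun g => ?_
      rw [coef_neg]
      have e1 : -m + (p : ℤ) ^ g * m = m * ((p : ℤ) ^ g - 1) := by ring
      have e2 : (starRingEnd ℂ) (coef μ m) * coef μ m = (‖coef μ m‖ : ℂ) ^ 2 := by
        rw [mul_comm]
        exact Complex.mul_conj' _
      rw [e1, e2]
    refine ⟨∑' g : ℕ, ‖coef μ (m * ((p : ℤ) ^ g - 1)) - (‖coef μ m‖ : ℂ) ^ 2‖, fun N _ => ?_⟩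
    rw [Real.rpow_zero, mul_one]
    exact h1.sum_le_tsum _ (fun g _ => norm_nonneg _)
  tfae_have 2 → 5 := by
    rintro ⟨β, hβ, h⟩
    refine ⟨β, hβ, fun m => ?_⟩
    obtain ⟨C, hC⟩ := h m
    refine ⟨2, 2 * C, fun N hN => ?_⟩
    refine (Pool.Agent.Omr.var_le hpμ m hN).trans ?_
    have hN0 : (0 : ℝ) < N := by exact_mod_cast hN
    rw [mul_assoc]
    exact div_le_div_of_nonneg_right (mul_le_mul_of_nonneg_left (hC N hN) (by norm_num)) hN0.le
  tfae_have 5 → 6 := by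
    rintro ⟨β, hβ, h⟩
    obtain ⟨N, hN, hN1, hgap, hs⟩ := seq_exists (β := β) (κ := max ((β + 1 + 3 / 2) / 2) 1)
      (lt_of_lt_of_le (by linarith) (le_max_left _ _)) (lt_of_lt_of_le one_pos (le_max_right _ _))
    refine ⟨max ((β + 1 + 3 / 2) / 2) 1, max_lt (by linarith) (by norm_num), N, hN, hgap, ?_⟩
    exact cc_of_moments hN1 hs h
  tfae_have 6 → 1 := by
    rintro ⟨κ, hκ, N, hN, hgap, h⟩
    rcases hp with rfl | rfl
    · exact eq_volume_of_cc h2 h3 hat (Or.inl ⟨rfl, rfl⟩) hκ hN hgap h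
    · exact eq_volume_of_cc h2 h3 hat (Or.inr ⟨rfl, rfl⟩) hκ hN hgap h
  tfae_finish

/-- The case of a measure invariant under `×q` only. -/
theorem one_map {μ ρ : Measure (AddCircle (1 : ℝ))} [IsProbabilityMeasure μ] [IsProbabilityMeasure ρ]
    (hna : ∀ x, μ {x} = 0) {p q : ℕ} (hpq : (p = 2 ∧ q = 3) ∨ (p = 3 ∧ q = 2))
    (hq : MeasurePreserving (fun x : AddCircle (1 : ℝ) => q • x) μ μ) (h : Complete p μ ρ) :
    volume ≤ (2 : ℝ≥0) • ρ ∧
      (Ergodic (fun x : AddCircle (1 : ℝ) => p • x) ρ → ρ = volume) := by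
  obtain ⟨κ, hκ, N, hN, hgap, h⟩ := h
  have h1 := Pool.Agent.PE.OneMap.half_of_cc hpq hκ hna hq hN hgap h
  refine ⟨h1, fun herg => ?_⟩
  have hac : (volume : Measure (AddCircle (1 : ℝ))) ≪ ρ := by
    refine Measure.absolutelyContinuous_of_le_smul (c := (2 : ℝ≥0∞)) ?_
    exact h1
  have hp : MeasurePreserving (fun x : AddCircle (1 : ℝ) => p • x)
      (volume : Measure (AddCircle (1 : ℝ))) volume := by
    rcases hpq with ⟨rfl, rfl⟩ | ⟨rfl, rfl⟩
    · exact (AddCircle.ergodic_nsmul (by norm_num)).toMeasurePreserving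
    · exact (AddCircle.ergodic_nsmul (by norm_num)).toMeasurePreserving
  obtain ⟨c, hc⟩ := herg.eq_smul_of_absolutelyContinuous hp hac
  have h2 : (1 : ℝ≥0∞) = c := by
    have h3 : (volume : Measure (AddCircle (1 : ℝ))) univ = (c • ρ) univ := by rw [← hc]
    have h4 : (volume : Measure (AddCircle (1 : ℝ))) univ = 1 := by simp
    have h5 : ρ univ = 1 := measure_univ
    rw [Measure.smul_apply, smul_eq_mul, h5, h4, mul_one] at h3
    exact h3
  rw [hc, ← h2, one_smul]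

/-- **Main theorem.** The second part (both maps preserve `μ`) is the case `ρ = μ` together with the converse directions
and with the sufficient conditions in terms of correlations and moments. -/
theorem result :
    (∀ μ ρ : Measure (AddCircle (1 : ℝ)), IsProbabilityMeasure μ → IsProbabilityMeasure ρ →
      (∀ x, μ {x} = 0) → ∀ p q : ℕ, (p = 2 ∧ q = 3) ∨ (p = 3 ∧ q = 2) →
      MeasurePreserving (fun x : AddCircle (1 : ℝ) => q • x) μ μ → Complete p μ ρ →
        volume ≤ (2 : ℝ≥0) • ρ ∧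
          (Ergodic (fun x : AddCircle (1 : ℝ) => p • x) ρ → ρ = volume)) ∧
    ∀ μ : Measure (AddCircle (1 : ℝ)), IsProbabilityMeasure μ → (∀ x, μ {x} = 0) →
      MeasurePreserving (fun x : AddCircle (1 : ℝ) => (2 : ℕ) • x) μ μ →
      MeasurePreserving (fun x : AddCircle (1 : ℝ) => (3 : ℕ) • x) μ μ →
      ∀ p : ℕ, p = 2 ∨ p = 3 → List.TFAE [
        μ = volume,
        ∃ β : ℝ, β < 1 / 2 ∧ ∀ m : ℤ, ∃ C : ℝ, ∀ N : ℕ, 1 ≤ N →
          ∑ g ∈ Finset.range N, ‖coef μ (m * ((p : ℤ) ^ g - 1)) - (‖coef μ m‖ : ℂ) ^ 2‖ ≤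
            C * (1 + Real.log N) ^ β,
        ∀ a b : ℤ, Summable fun g : ℕ => ‖coef μ (a + (p : ℤ) ^ g * b) - coef μ a * coef μ b‖,
        ∃ s : ℝ, 1 < s ∧ ∀ a b : ℤ, ∃ C : ℝ, ∀ g : ℕ,
          ‖coef μ (a + (p : ℤ) ^ g * b) - coef μ a * coef μ b‖ ≤ C * (1 + (g : ℝ)) ^ (-s),
        ∃ β : ℝ, β < 1 / 2 ∧ ∀ m : ℤ, ∃ (r : ℕ) (C : ℝ), ∀ N : ℕ, 1 ≤ N →
          ∫ x, ‖avg p m N x - coef μ m‖ ^ r ∂μ ≤ C * (1 + Real.log N) ^ β / N,
        Complete p μ μ] :=
  ⟨fun _ _ _ _ hna _ _ hpq hq h => one_map hna hpq hq h,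
    fun _ _ hat h2 h3 _ hp => tfae h2 h3 hat hp⟩

end Pool.Agent.Results.MP_e27144_an.OneMapRates
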