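import Pool.Agent.SupC.LocalC
import Pool.Agent.SupC.Cod2

/-!
# The complexity of `×2`, `×3`-invariant measures is superquadratic

`P` is a probability measure on `X` preserved by the maps `S` and `R`, and `φ : X → ℝ / ℤ` is a
factor map onto the action of `×2` and `×3`; `μ = P.map φ`. The case `X = ℝ / ℤ`, `φ = id` is the case
of an arbitrary probability measure invariant under `×2` and `×3`.
A subset `B` of `X` is `n`-close if for two points `x`, `y` of `B` all but at most `n ^ (2 - η)` of the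
`n ^ 2` distances `‖2 ^ a * 3 ^ b * (φ x - φ y)‖`, `0 ≤ a, b < n`, are smaller than `1 / 4`.
-/

open MeasureTheory

open scoped ENNReal

namespace Pool.Agent.Results.MP_e27144_an.SuperquadraticComplexity

/-- For two points `x`, `y` of the set `B`, at most `n ^ (2 - η)` of the pairs `(a, b)` with
`0 ≤ a, b < n` have `‖2 ^ a * 3 ^ b * (φ x - φ y)‖ ≥ 1 / 4`. -/
def Close {X : Type} (φ : X → AddCircle (1 : ℝ)) (η : ℝ) (n : ℕ) (B : Set X) : Prop :=
  ∀ x ∈ B, ∀ y ∈ B, (((Finset.range n ×ˢ Finset.range n).filter (fun p : ℕ × ℕ =>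
    1 / 4 ≤ ‖(2 ^ p.1 * 3 ^ p.2 : ℕ) • (φ x - φ y)‖)).card : ℝ) ≤ (n : ℝ) ^ (2 - η)

/-- `φ` is a measurable factor map of the system `(X, P, S, R)` onto the action of `×2`, `×3` on the
circle with the measure `P.map φ`. -/
structure Factor {X : Type} [MeasurableSpace X] (P : Measure X) (S R : X → X)
    (φ : X → AddCircle (1 : ℝ)) : Prop where
  prob : IsProbabilityMeasure P
  mpS : MeasurePreserving S P P
  mpR : MeasurePreserving R P P
  meas : Measurable φ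
  two : ∀ᵐ x ∂P, φ (S x) = (2 : ℕ) • φ x
  three : ∀ᵐ x ∂P, φ (R x) = (3 : ℕ) • φ x

/-- **Main theorem.** -/
theorem result :
    -- the circle itself is a system
    (∀ μ : Measure (AddCircle (1 : ℝ)), IsProbabilityMeasure μ →
      MeasurePreserving (fun x => (2 : ℕ) • x) μ μ →
      MeasurePreserving (fun x => (3 : ℕ) • x) μ μ →
      Factor μ (fun x => (2 : ℕ) • x) (fun x => (3 : ℕ) • x) id) ∧
    -- (0) local form, uniform in the system and in the point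
    (∀ η θ ε : ℝ, 0 < η → 0 < θ → 0 < ε → ∃ n₀ : ℕ, ∀ n : ℕ, n₀ ≤ n →
      ∀ (X : Type) [MeasurableSpace X] (P : Measure X) (S R : X → X)
      (φ : X → AddCircle (1 : ℝ)), Factor P S R φ → ∀ B : Set X, Close φ η n B →
      (∃ x ∈ B, ∀ q : ℕ, 1 ≤ q → (q : ℝ) ≤ Real.exp (θ * n) →
        Real.exp (-(n / 30)) ≤ ‖q • φ x‖) → P B ≤ ENNReal.ofReal (ε / (n : ℝ) ^ 2)) ∧
    -- (1) irrational points, windows of bounded ratio
    (∀ z : AddCircle (1 : ℝ), (∀ q : ℕ, 0 < q → q • z ≠ 0) → ∀ η ε W : ℝ, 0 < η → 0 < ε →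
      ∀ m₀ : ℕ, ∃ m ≥ m₀, ∀ n : ℕ, m ≤ n → (n : ℝ) ≤ W * m →
      ∀ (X : Type) [MeasurableSpace X] (P : Measure X) (S R : X → X)
      (φ : X → AddCircle (1 : ℝ)), Factor P S R φ → ∀ B : Set X, Close φ η n B →
      (∃ x ∈ B, φ x = z) → P B ≤ ENNReal.ofReal (ε / (n : ℝ) ^ 2)) ∧
    -- (1) points which are not Liouville numbers, all large scales
    (∀ z : AddCircle (1 : ℝ), (∃ A : ℝ, ∃ Q : ℕ, ∀ q : ℕ, Q ≤ q → (q : ℝ) ^ (-A) ≤ ‖q • z‖) →
      ∀ η ε : ℝ, 0 < η → 0 < ε → ∃ n₀ : ℕ, ∀ n : ℕ, n₀ ≤ n →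
      ∀ (X : Type) [MeasurableSpace X] (P : Measure X) (S R : X → X)
      (φ : X → AddCircle (1 : ℝ)), Factor P S R φ → ∀ B : Set X, Close φ η n B →
      (∃ x ∈ B, φ x = z) → P B ≤ ENNReal.ofReal (ε / (n : ℝ) ^ 2)) ∧
    -- (2) atomless measures, windows of bounded ratio
    (∀ (X : Type) [MeasurableSpace X] (P : Measure X) (S R : X → X)
      (φ : X → AddCircle (1 : ℝ)), Factor P S R φ → (∀ z, P.map φ {z} = 0) →
      ∀ η : ℝ, 0 < η → ∀ (C W : ℝ) (m₀ : ℕ), ∃ m ≥ m₀, ∀ n : ℕ, m ≤ n → (n : ℝ) ≤ W * m →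
      ∀ (K : ℕ) (B : Fin K → Set X), (∀ i, Close φ η n (B i)) → (K : ℝ) ≤ C * (n : ℝ) ^ 2 →
        ENNReal.ofReal ((Real.log n) ^ (-(1 + η))) < P (⋃ i, B i)ᶜ) ∧
    -- (3) systems of quadratic complexity
    (∀ (X : Type) [PseudoMetricSpace X] [MeasurableSpace X] (P : Measure X) (S R : X → X)
      (φ : X → AddCircle (1 : ℝ)), Factor P S R φ → ∀ C c : ℝ, 0 < c →
      (∀ n : ℕ, 1 ≤ n → ∃ (K : ℕ) (A : Fin K → Set X),
        (K : ℝ) ≤ C * (n : ℝ) ^ 2 ∧ P (⋃ i, A i)ᶜ ≤ ENNReal.ofReal (C * (n : ℝ) ^ (-c)) ∧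
        ∀ i, ∀ x ∈ A i, ∀ y ∈ A i, ∀ a < n, ∀ b < n,
          dist (S^[a] (R^[b] x)) (S^[a] (R^[b] y)) ≤ (n : ℝ) ^ (-c)) →
      (∀ r : ℝ, 0 < r → r ≤ 1 →
        P {x | ∃ y, dist x y ≤ r ∧ 1 / 4 ≤ ‖φ x - φ y‖} ≤ ENNReal.ofReal (C * r ^ c)) →
      ∃ z, P.map φ {z} ≠ 0) := by
  have hclose : ∀ {X : Type} (φ : X → AddCircle (1 : ℝ)) (η : ℝ) (n : ℕ) (B : Set X),
      Close φ η n B → ∀ x ∈ B, ∀ y ∈ B,
      (Pool.Agent.CplxN.cnt (Pool.Agent.CplxN.bx n) Pool.Agent.CplxN.far (φ x - φ y) : ℝ) ≤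
        (n : ℝ) ^ (2 - η) := by
    intro X φ η n B h x hx y hy
    have h1 := h x hx y hy
    refine le_trans (le_of_eq ?_) h1
    unfold Pool.Agent.CplxN.cnt Pool.Agent.CplxN.bx
    congr 2
  have hmin : ∀ {X : Type} (φ : X → AddCircle (1 : ℝ)) (η : ℝ) (n : ℕ) (B : Set X), 1 ≤ n →
      Close φ η n B → ∀ x ∈ B, ∀ y ∈ B,
      (Pool.Agent.CplxN.cnt (Pool.Agent.CplxN.bx n) Pool.Agent.CplxN.far (φ x - φ y) : ℝ) ≤
        (n : ℝ) ^ (2 - min η 1) := by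
    intro X φ η n B hn h x hx y hy
    refine (hclose φ η n B h x hx y hy).trans (Real.rpow_le_rpow_of_exponent_le ?_ ?_)
    · exact_mod_cast hn
    · linarith [min_le_left η 1]
  refine ⟨fun μ hμ h2 h3 => ⟨hμ, h2, h3, measurable_id, Filter.Eventually.of_forall fun _ => rfl,
    Filter.Eventually.of_forall fun _ => rfl⟩, fun η θ ε hη hθ hε => ?_,
    fun z hz η ε W hη hε m₀ => ?_, fun z hz η ε hη hε => ?_, ?_, ?_⟩
  · obtain ⟨n₀, hn₀⟩ := Pool.Agent.SupC.local_sys (min η 1) θ ε (lt_min hη one_pos)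
      (min_le_right _ _) hθ hε
    refine ⟨max n₀ 1, fun n hn X _ P S R φ hF B hB hx => ?_⟩
    obtain ⟨x, hxB, hx⟩ := hx
    exact hn₀ n ((le_max_left _ _).trans hn) X inferInstance P hF.prob S R hF.mpS hF.mpR φ
      hF.meas hF.two hF.three B (hmin φ η n B ((le_max_right n₀ 1).trans hn) hB) x hxB hx
  · obtain ⟨m, hm, h⟩ := Pool.Agent.SupC.local_irr z hz (min η 1) ε W (lt_min hη one_pos)
      (min_le_right _ _) hε (max m₀ 1)
    refine ⟨m, (le_max_left _ _).trans hm, fun n hn hnW X _ P S R φ hF B hB hx => ?_⟩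
    obtain ⟨x, hxB, hx⟩ := hx
    have hn1 : 1 ≤ n := ((le_max_right m₀ 1).trans hm).trans hn
    exact h n hn hnW X inferInstance P hF.prob S R hF.mpS hF.mpR φ
      hF.meas hF.two hF.three B (hmin φ η n B hn1 hB) x hxB hx
  · obtain ⟨n₀, hn₀⟩ := Pool.Agent.SupC.local_dio z hz (min η 1) ε (lt_min hη one_pos)
      (min_le_right _ _) hε
    refine ⟨max n₀ 1, fun n hn X _ P S R φ hF B hB hx => ?_⟩
    obtain ⟨x, hxB, hx⟩ := hx
    exact hn₀ n ((le_max_left _ _).trans hn) X inferInstance P hF.prob S R hF.mpS hF.mpR φ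
      hF.meas hF.two hF.three B (hmin φ η n B ((le_max_right n₀ 1).trans hn) hB) x hxB hx
  · intro X _ P S R φ hF hat η hη C W m₀
    have hprob := hF.prob
    obtain ⟨m, hm, h⟩ := Pool.Agent.SupC.cor_atomless_sys P hF.mpS hF.mpR φ hF.meas hF.two
      hF.three hat η hη C W m₀
    exact ⟨m, hm, fun n hn hnW K B hB hK => h n hn hnW K B hK fun i => hclose φ η n (B i) (hB i)⟩
  · intro X _ _ P S R φ hF C c hc hcov hosc
    have hprob := hF.prob
    exact Pool.Agent.SupC.coding2 P hF.mpS hF.mpR φ hF.meas hF.two hF.three C c hc hcov hosc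

end Pool.Agent.Results.MP_e27144_an.SuperquadraticComplexity
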